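import Pool.Agent.Helper3.AK.Goals4

/-!
# Packet AK-C1 (MP_75608d_al): excess, full vertices, monotonicity
-/

namespace Pool.Agent.Helper3.AK

open Equiv Finset

variable {n : ℕ} (x : Fin 2 → Alt n) (g : ℕ → Letter 2) (S : Finset (Fin n))

namespace C1

theorem mem_Kn {t : ℕ} {d : Fin n × Letter 2} : d ∈ Kn x g S t ↔
    ∃ s < t, ∃ p ∈ S, (pz x g s p, g s) = d ∨ (pz x g (s + 1) p, flip (g s)) = d := by
  simp only [Kn, mem_biUnion, mem_range, mem_union, mem_image]
  constructor
  · rintro ⟨s, hs, ⟨p, hp, h⟩ | ⟨p, hp, h⟩⟩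
    · exact ⟨s, hs, p, hp, Or.inl h⟩
    · exact ⟨s, hs, p, hp, Or.inr h⟩
  · rintro ⟨s, hs, p, hp, h | h⟩
    · exact ⟨s, hs, Or.inl ⟨p, hp, h⟩⟩
    · exact ⟨s, hs, Or.inr ⟨p, hp, h⟩⟩

theorem mem_Vis {t : ℕ} {v : Fin n} : v ∈ Vis x g S t ↔ ∃ s ≤ t, ∃ p ∈ S, pz x g s p = v := by
  simp only [Vis, mem_biUnion, mem_range, mem_image, Nat.lt_succ_iff]

theorem mem_Lt {t : ℕ} {v : Fin n} {l : Letter 2} : l ∈ Lt x g S t v ↔ (v, l) ∈ Kn x g S t := by
  simp [Lt]

theorem Kn_mono {s t : ℕ} (h : s ≤ t) : Kn x g S s ⊆ Kn x g S t := by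
  intro d hd
  rw [mem_Kn] at hd ⊢
  obtain ⟨r, hr, p, hp, h1⟩ := hd
  exact ⟨r, hr.trans_le h, p, hp, h1⟩

theorem Vis_mono {s t : ℕ} (h : s ≤ t) : Vis x g S s ⊆ Vis x g S t := by
  intro d hd
  rw [mem_Vis] at hd ⊢
  obtain ⟨r, hr, p, hp, h1⟩ := hd
  exact ⟨r, hr.trans h, p, hp, h1⟩

theorem fst_mem_Vis {t : ℕ} {d : Fin n × Letter 2} (h : d ∈ Kn x g S t) : d.1 ∈ Vis x g S t := by
  rw [mem_Kn] at h
  rw [mem_Vis]
  obtain ⟨s, hs, p, hp, rfl | rfl⟩ := h
  · exact ⟨s, hs.le, p, hp, rfl⟩
  · exact ⟨s + 1, hs, p, hp, rfl⟩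

theorem lett_pz (t : ℕ) (p : Fin n) : lett x (g t) (pz x g t p) = pz x g (t + 1) p := rfl

/-- `Kn` is closed under inversion of darts -/
theorem Kn_inv {t : ℕ} {v : Fin n} {l : Letter 2} (h : (v, l) ∈ Kn x g S t) :
    (lett x l v, flip l) ∈ Kn x g S t := by
  rw [mem_Kn] at h ⊢
  obtain ⟨s, hs, p, hp, h | h⟩ := h
  · obtain ⟨rfl, rfl⟩ := Prod.mk.injEq _ _ _ _ ▸ h
    exact ⟨s, hs, p, hp, Or.inr rfl⟩
  · obtain ⟨rfl, rfl⟩ := Prod.mk.injEq _ _ _ _ ▸ h
    refine ⟨s, hs, p, hp, Or.inl ?_⟩
    rw [flip_flip, lett_flip]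
    refine Prod.ext ?_ rfl
    change _ = (lett x (g s))⁻¹ (lett x (g s) (pz x g s p))
    exact (Equiv.symm_apply_apply (lett x (g s)) _).symm

theorem ex_succ (t : ℕ) : ex x g S t ≤ ex x g S (t + 1) := by
  classical
  -- the new vertices
  let P : Finset (Fin n) := S.filter fun p => pz x g (t + 1) p ∉ Vis x g S t
  have hV : (Vis x g S (t + 1)).card ≤ (Vis x g S t).card + P.card := by
    have h1 : Vis x g S (t + 1) ⊆ Vis x g S t ∪ P.image (fun p => pz x g (t + 1) p) := by
      intro v hv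
      rw [mem_Vis] at hv
      obtain ⟨s, hs, p, hp, rfl⟩ := hv
      rw [mem_union]
      by_cases h : pz x g s p ∈ Vis x g S t
      · exact Or.inl h
      · right
        have hs' : s = t + 1 := by
          by_contra hne
          exact h ((mem_Vis x g S).2 ⟨s, by omega, p, hp, rfl⟩)
        subst hs'
        exact mem_image.2 ⟨p, mem_filter.2 ⟨hp, h⟩, rfl⟩
    exact (card_le_card h1).trans ((card_union_le _ _).trans
      (Nat.add_le_add_left card_image_le _))
  have hK : (Kn x g S t).card + 2 * P.card ≤ (Kn x g S (t + 1)).card := by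
    let A := P.image (fun p => (pz x g (t + 1) p, flip (g t)))
    let B := P.image (fun p => (pz x g t p, g t))
    have hA : A.card = P.card := card_image_of_injective _ fun p q h =>
      (pz x g (t + 1)).injective (congrArg Prod.fst h)
    have hB : B.card = P.card := card_image_of_injective _ fun p q h =>
      (pz x g t).injective (congrArg Prod.fst h)
    have hAB : Disjoint A B := by
      rw [Finset.disjoint_left]
      intro d hd hd'
      obtain ⟨p, -, rfl⟩ := mem_image.1 hd
      obtain ⟨q, -, h⟩ := mem_image.1 hd'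
      exact flip_ne (g t) (congrArg Prod.snd h).symm
    have hA' : ∀ d ∈ A, d ∉ Kn x g S t := by
      intro d hd hd'
      obtain ⟨p, hp, rfl⟩ := mem_image.1 hd
      exact (mem_filter.1 hp).2 (fst_mem_Vis x g S hd')
    have hB' : ∀ d ∈ B, d ∉ Kn x g S t := by
      intro d hd hd'
      obtain ⟨p, hp, rfl⟩ := mem_image.1 hd
      have h1 := Kn_inv x g S hd'
      exact (mem_filter.1 hp).2 (fst_mem_Vis x g S h1)
    have hd1 : Disjoint (Kn x g S t) (A ∪ B) := by
      rw [Finset.disjoint_right]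
      intro d hd
      rcases mem_union.1 hd with h | h
      · exact hA' d h
      · exact hB' d h
    have hsub : Kn x g S t ∪ (A ∪ B) ⊆ Kn x g S (t + 1) := by
      refine union_subset (Kn_mono x g S (Nat.le_succ t)) (union_subset ?_ ?_)
      · intro d hd
        obtain ⟨p, hp, rfl⟩ := mem_image.1 hd
        exact (mem_Kn x g S).2 ⟨t, Nat.lt_succ_self t, p, (mem_filter.1 hp).1, Or.inr rfl⟩
      · intro d hd
        obtain ⟨p, hp, rfl⟩ := mem_image.1 hd
        exact (mem_Kn x g S).2 ⟨t, Nat.lt_succ_self t, p, (mem_filter.1 hp).1, Or.inl rfl⟩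
    have h2 := card_le_card hsub
    rw [card_union_of_disjoint hd1, card_union_of_disjoint hAB, hA, hB] at h2
    omega
  unfold ex
  omega

theorem ex_mono {s t : ℕ} (h : s ≤ t) : ex x g S s ≤ ex x g S t := by
  induction t, h using Nat.le_induction with
  | base => exact le_rfl
  | succ t _ ih => exact ih.trans (ex_succ x g S t)

theorem sum_Lt (t : ℕ) : ∑ v ∈ Vis x g S t, (Lt x g S t v).card = (Kn x g S t).card := by
  classical
  have h1 : ∀ v, (Lt x g S t v).card = ((Kn x g S t).filter fun d => d.1 = v).card := by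
    intro v
    refine card_bij (fun l _ => (v, l)) ?_ ?_ ?_
    · intro l hl
      exact mem_filter.2 ⟨(mem_Lt x g S).1 hl, rfl⟩
    · intro l _ l' _ h
      exact congrArg Prod.snd h
    · rintro ⟨w, l⟩ hd
      obtain ⟨h1, h2⟩ := mem_filter.1 hd
      simp only at h2
      subst h2
      exact ⟨l, (mem_Lt x g S).2 h1, rfl⟩
  rw [sum_congr rfl fun v _ => h1 v]
  exact (card_eq_sum_card_fiberwise fun d hd => fst_mem_Vis x g S hd).symm

theorem Lt_empty {t : ℕ} {v : Fin n} (h : v ∉ Vis x g S t) : Lt x g S t v = ∅ := by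
  rw [eq_empty_iff_forall_notMem]
  intro l hl
  exact h (fst_mem_Vis x g S ((mem_Lt x g S).1 hl))

/-- the main inequality -/
theorem sum_le {m : ℕ} (hg : Red g m) {t : ℕ} (ht : t ≤ m) :
    ((∑ v, ((Lt x g S t v).card - 2) : ℕ) : ℤ) ≤ ex x g S t := by
  classical
  rcases Nat.eq_zero_or_pos t with rfl | ht0
  · have hK : Kn x g S 0 = ∅ := by simp [Kn]
    have hV : Vis x g S 0 = S := by
      ext v
      rw [mem_Vis]
      constructor
      · rintro ⟨s, hs, p, hp, rfl⟩
        obtain rfl : s = 0 := by omega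
        exact hp
      · intro hv
        exact ⟨0, le_rfl, v, hv, rfl⟩
    have hL : ∀ v, Lt x g S 0 v = ∅ := by
      intro v
      rw [eq_empty_iff_forall_notMem]
      intro l hl
      have := (mem_Lt x g S).1 hl
      rw [hK] at this
      exact absurd this (notMem_empty _)
    simp only [hL, card_empty, ex, hK, hV]
    simp
  · have h1 : ∑ v, ((Lt x g S t v).card - 2) =
        ∑ v ∈ Vis x g S t, ((Lt x g S t v).card - 2) := by
      symm
      refine sum_subset (subset_univ _) fun v _ hv => ?_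
      rw [Lt_empty x g S hv]
      rfl
    have hpos : ∀ v ∈ Vis x g S t, 1 ≤ (Lt x g S t v).card := by
      intro v hv
      rw [mem_Vis] at hv
      obtain ⟨s, hs, p, hp, rfl⟩ := hv
      rw [Nat.one_le_iff_ne_zero, Ne, card_eq_zero]
      rcases hs.lt_or_eq with hs | rfl
      · exact ne_empty_of_mem ((mem_Lt x g S).2 ((mem_Kn x g S).2 ⟨s, hs, p, hp, Or.inl rfl⟩))
      · obtain ⟨s, rfl⟩ : ∃ k, s = k + 1 := ⟨s - 1, by omega⟩
        exact ne_empty_of_mem ((mem_Lt x g S).2 ((mem_Kn x g S).2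
          ⟨s, Nat.lt_succ_self s, p, hp, Or.inr rfl⟩))
    have hone : ((Vis x g S t).filter fun v => (Lt x g S t v).card = 1).card ≤ 2 * S.card := by
      have hsub : ((Vis x g S t).filter fun v => (Lt x g S t v).card = 1) ⊆
          S ∪ S.image (fun p => pz x g t p) := by
        intro v hv
        obtain ⟨hv, hv1⟩ := mem_filter.1 hv
        rw [mem_Vis] at hv
        obtain ⟨s, hs, p, hp, rfl⟩ := hv
        rw [mem_union]
        rcases Nat.eq_zero_or_pos s with rfl | hs0
        · exact Or.inl hp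
        · rcases hs.lt_or_eq with hs | rfl
          · exfalso
            obtain ⟨s, rfl⟩ : ∃ k, s = k + 1 := ⟨s - 1, by omega⟩
            have h2 : g (s + 1) ∈ Lt x g S t (pz x g (s + 1) p) :=
              (mem_Lt x g S).2 ((mem_Kn x g S).2 ⟨s + 1, hs, p, hp, Or.inl rfl⟩)
            have h3 : flip (g s) ∈ Lt x g S t (pz x g (s + 1) p) :=
              (mem_Lt x g S).2 ((mem_Kn x g S).2 ⟨s, by omega, p, hp, Or.inr rfl⟩)
            have h4 : g (s + 1) ≠ flip (g s) := hg s (by omega)
            have h5 := card_le_one.1 hv1.le _ h2 _ h3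
            exact h4 h5
          · exact Or.inr (mem_image.2 ⟨p, hp, rfl⟩)
      refine (card_le_card hsub).trans ((card_union_le _ _).trans ?_)
      have := card_image_le (s := S) (f := fun p => pz x g t p)
      omega
    have h2 : ∀ v ∈ Vis x g S t, (((Lt x g S t v).card - 2 : ℕ) : ℤ) =
        (Lt x g S t v).card - 2 + if (Lt x g S t v).card = 1 then 1 else 0 := by
      intro v hv
      have := hpos v hv
      split_ifs with h
      · rw [h]; rfl
      · have h3 : 2 ≤ (Lt x g S t v).card := by omega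
        rw [Nat.cast_sub h3]
        simp
    rw [h1, Nat.cast_sum, sum_congr rfl h2, sum_add_distrib, sum_sub_distrib, ← Nat.cast_sum,
      sum_Lt, sum_const, ← sum_filter, sum_const]
    unfold ex
    simp only [nsmul_eq_mul, mul_one]
    have h3 : (((Vis x g S t).filter fun v => (Lt x g S t v).card = 1).card : ℤ) ≤
        2 * S.card := by exact_mod_cast hone
    linarith

end C1

/-- **C1** -/
theorem c1 : S_C1 := by
  intro n x g S m hg t ht
  have h := C1.sum_le x g S hg ht
  refine ⟨?_, ?_, fun s hs => C1.ex_mono x g S hs⟩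
  · refine le_trans ?_ h
    have h1 : 2 * (full x g S t).card ≤ ∑ v, ((Lt x g S t v).card - 2) := by
      calc 2 * (full x g S t).card = ∑ v ∈ full x g S t, ((Lt x g S t v).card - 2) := by
            rw [Finset.sum_congr rfl (g := fun _ => 2), Finset.sum_const, smul_eq_mul, mul_comm]
            intro v hv
            have h2 : Lt x g S t v = Finset.univ := (Finset.mem_filter.1 hv).2
            rw [h2]
            decide
        _ ≤ _ := Finset.sum_le_sum_of_subset (Finset.subset_univ _)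
    exact_mod_cast h1
  · unfold pot
    rw [Nat.cast_add]
    have h1 := Finset.card_filter_le S fun v => 2 ≤ (Lt x g S t v).card
    have h2 : (((S.filter fun v => 2 ≤ (Lt x g S t v).card).card : ℕ) : ℤ) ≤ S.card := by
      exact_mod_cast h1
    exact add_le_add h h2

end Pool.Agent.Helper3.AK
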