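import Pool.Agent.Helper3.AK.Goals1

/-!
# Packet AK-FRI (MP_75608d_al): the inclusion-exclusion identity
-/

namespace Pool.Agent.Helper3.AK

open Equiv Finset

variable {n r : ℕ}

/-- the sum over a set of tuples which is defined by conditions off `j` vanishes -/
theorem sum_zero_of_off (f : Fn n r) (hf : Zm f) (j : Fin r) (Q : (Fin r ↪ Fin n) → Prop)
    [DecidablePred Q] (hQ : ∀ b b' : Fin r ↪ Fin n, (∀ i, i ≠ j → b i = b' i) → Q b → Q b') :
    ∑ b ∈ univ.filter Q, f b = 0 := by
  classical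
  rw [← Finset.sum_fiberwise (univ.filter Q)
    (fun b : Fin r ↪ Fin n => fun i : {i : Fin r // i ≠ j} => b i.1) f]
  refine Finset.sum_eq_zero fun v _ => ?_
  by_cases h : ∃ b0 : Fin r ↪ Fin n, Q b0 ∧ (fun i : {i : Fin r // i ≠ j} => b0 i.1) = v
  · obtain ⟨b0, hb0, rfl⟩ := h
    refine (Finset.sum_congr ?_ fun _ _ => rfl).trans (hf j b0)
    ext b
    simp only [mem_filter, mem_univ, true_and]
    constructor
    · rintro ⟨-, h⟩ i hi
      exact congrFun h ⟨i, hi⟩
    · intro h
      refine ⟨hQ b0 b (fun i hi => (h i hi).symm) hb0, ?_⟩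
      funext i
      exact h i.1 i.2
  · refine Finset.sum_eq_zero fun b hb => ?_
    rw [mem_filter, mem_filter] at hb
    exact absurd ⟨b, hb.1.2, hb.2⟩ h

/-- the conditions of the sum `S K` -/
def PK (J K : Finset (Fin r)) (a b : Fin r ↪ Fin n) : Prop :=
  (∀ i, i ∉ J → b i = a i) ∧ (∀ i ∈ K, ∃ i' ∈ J, b i = a i') ∧ ∀ i ∈ J, i ∉ K → ∀ i', b i ≠ a i'

theorem sum_step (f : Fn n r) (hf : Zm f) (J K : Finset (Fin r)) (a : Fin r ↪ Fin n) (j : Fin r)
    (hj : j ∈ J) (hjK : j ∉ K) [DecidablePred (PK J K a)] [DecidablePred (PK J (insert j K) a)] :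
    ∑ b ∈ univ.filter (PK J (insert j K) a), f b = - ∑ b ∈ univ.filter (PK J K a), f b := by
  classical
  rw [eq_neg_iff_add_eq_zero, ← Finset.sum_union]
  · have h := sum_zero_of_off f hf j (fun b => (∀ i, i ∉ J → b i = a i) ∧
      (∀ i ∈ K, ∃ i' ∈ J, b i = a i') ∧ ∀ i ∈ J, i ∉ K → i ≠ j → ∀ i', b i ≠ a i') ?_
    · refine (Finset.sum_congr ?_ fun _ _ => rfl).trans h
      ext b
      simp only [mem_union, mem_filter, mem_univ, true_and, PK]
      constructor
      · rintro (⟨h1, h2, h3⟩ | ⟨h1, h2, h3⟩)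
        · refine ⟨h1, fun i hi => h2 i (mem_insert_of_mem hi), fun i hi hiK hij => h3 i hi ?_⟩
          rw [mem_insert, not_or]
          exact ⟨hij, hiK⟩
        · exact ⟨h1, h2, fun i hi hiK _ => h3 i hi hiK⟩
      · rintro ⟨h1, h2, h3⟩
        by_cases h4 : ∃ i', b j = a i'
        · left
          refine ⟨h1, fun i hi => ?_, fun i hi hiK => ?_⟩
          · rcases mem_insert.1 hi with rfl | hi
            · obtain ⟨i', hi'⟩ := h4
              by_cases h5 : i' ∈ J
              · exact ⟨i', h5, hi'⟩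
              · have h6 : b i = b i' := hi'.trans (h1 i' h5).symm
                exact absurd (b.injective h6 ▸ hj) h5
            · exact h2 i hi
          · rw [mem_insert, not_or] at hiK
            exact h3 i hi hiK.2 hiK.1
        · right
          refine ⟨h1, h2, fun i hi hiK => ?_⟩
          by_cases h5 : i = j
          · subst h5
            intro i' h6
            exact h4 ⟨i', h6⟩
          · exact h3 i hi hiK h5
    · rintro b b' hb ⟨h1, h2, h3⟩
      refine ⟨fun i hi => ?_, fun i hi => ?_, fun i hi hiK hij => ?_⟩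
      · rw [← hb i (fun h => hi (h ▸ hj))]
        exact h1 i hi
      · rw [← hb i (fun h => hjK (h ▸ hi))]
        exact h2 i hi
      · rw [← hb i hij]
        exact h3 i hi hiK hij
  · rw [Finset.disjoint_left]
    intro b hb hb'
    rw [mem_filter] at hb hb'
    obtain ⟨i', -, hi'⟩ := hb.2.2.1 j (mem_insert_self j K)
    exact hb'.2.2.2 j hj hjK i' hi'

theorem sum_K (f : Fn n r) (hf : Zm f) (J : Finset (Fin r)) (a : Fin r ↪ Fin n)
    [∀ K, DecidablePred (PK J K a)] (K : Finset (Fin r)) (hK : K ⊆ J) :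
    ∑ b ∈ univ.filter (PK J K a), f b =
      (-1) ^ K.card * ∑ b ∈ univ.filter (PK J ∅ a), f b := by
  classical
  induction K using Finset.induction_on with
  | empty => simp
  | insert j K hj ih =>
    rw [sum_step f hf J K a j (hK (mem_insert_self j K)) hj,
      ih ((subset_insert j K).trans hK), card_insert_of_notMem hj]
    ring

/-- **FRI** -/
theorem fri : S_FRI := by
  intro n r f hf J a
  classical
  have h := sum_K f hf J a J subset_rfl
  have h1 : univ.filter (fun b : Fin r ↪ Fin n =>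
      (∀ i, i ∉ J → b i = a i) ∧ ∀ i ∈ J, ∀ i', b i ≠ a i') = univ.filter (PK J ∅ a) := by
    ext b
    simp only [mem_filter, mem_univ, true_and, PK]
    constructor
    · rintro ⟨h1, h2⟩
      exact ⟨h1, fun i hi => absurd hi (notMem_empty i), fun i hi _ => h2 i hi⟩
    · rintro ⟨h1, -, h2⟩
      exact ⟨h1, fun i hi => h2 i hi (notMem_empty i)⟩
  have h2 : univ.filter (fun b : Fin r ↪ Fin n =>
      (∀ i, i ∉ J → b i = a i) ∧ ∀ i ∈ J, ∃ i' ∈ J, b i = a i') = univ.filter (PK J J a) := by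
    ext b
    simp only [mem_filter, mem_univ, true_and, PK]
    constructor
    · rintro ⟨h1, h2⟩
      exact ⟨h1, h2, fun i hi hi' => absurd hi hi'⟩
    · rintro ⟨h1, h2, -⟩
      exact ⟨h1, h2⟩
  rw [h1, h2, h, ← mul_assoc, ← mul_pow]
  norm_num

end Pool.Agent.Helper3.AK
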